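import Pool.Agent.N466.Pl.Euclid

/-!
The closed chromatic number of the plane equals seven, and so does its congruent version.
-/

set_option autoImplicit false

namespace Pool.Agent.Results.MP_d6af2b_co.ClosedSeven

open Set

/-- the Euclidean plane -/
abbrev Plane : Type := EuclideanSpace ℝ (Fin 2)

/-- no two points of the set are at distance exactly one -/
def UnitFree (S : Set Plane) : Prop := ∀ x ∈ S, ∀ y ∈ S, dist x y ≠ 1

/-- the plane is a union of `k` closed unit distance free sets -/
def ClosedCover (k : ℕ) : Prop :=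
  ∃ C : Fin k → Set Plane, (∀ i, IsClosed (C i)) ∧ (∀ i, UnitFree (C i)) ∧ ⋃ i, C i = univ

/-- the plane is a union of `k` closed unit distance free sets that are pairwise congruent -/
def CongruentCover (k : ℕ) : Prop :=
  ∃ C : Fin k → Set Plane, (∀ i, IsClosed (C i)) ∧ (∀ i, UnitFree (C i)) ∧ ⋃ i, C i = univ ∧
    ∀ i j, ∃ f : Plane ≃ᵢ Plane, f '' C i = C j

/-- the closed chromatic number of the plane -/
noncomputable def u2 : ℕ := sInf {k | ClosedCover k}

/-- the closed congruent chromatic number of the plane -/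
noncomputable def v2 : ℕ := sInf {k | CongruentCover k}

/-- both minima exist and are equal to seven, hence `u2 = v2` -/
theorem result : IsLeast {k | ClosedCover k} 7 ∧ IsLeast {k | CongruentCover k} 7 ∧ u2 = v2 := by
  have h1 : IsLeast {k | ClosedCover k} 7 := by
    constructor
    · obtain ⟨C, hC, hf, hc, _⟩ := Pool.Agent.N466.Pl.euclid_seven
      exact ⟨C, hC, hf, hc⟩
    · rintro k ⟨C, hC, hf, hc⟩
      by_contra hk
      exact Pool.Agent.N466.Pl.euclid_six k (not_le.1 hk) C hC hf hc
  have h2 : IsLeast {k | CongruentCover k} 7 := by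
    constructor
    · exact Pool.Agent.N466.Pl.euclid_seven
    · rintro k ⟨C, hC, hf, hc, _⟩
      exact h1.2 ⟨C, hC, hf, hc⟩
  refine ⟨h1, h2, ?_⟩
  unfold u2 v2
  rw [h1.csInf_eq, h2.csInf_eq]

end Pool.Agent.Results.MP_d6af2b_co.ClosedSeven
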